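import Pool.Agent.helper38.OP.Spec

/-!
# Row K4S of project OP (MP_bf63dc_nt): few 4-cliques, with a sign
-/

set_option autoImplicit false

namespace Pool.Agent.OP

open Finset Real Pool.Agent.AT Pool.Agent.helper85.FC Pool.Agent.OM

/-- the linear form of a point -/
def K4S_f (σ : ℤ) (a b L : ℕ) (p : ℕ × ℕ) : ℕ × ℤ := (a ^ p.1 * b ^ (L - p.1), 1 + 6 * a * b * (σ * p.2))

theorem K4S_split {a b L i j : ℕ} (hj : j < i) (hi : i ≤ L) :
    a ^ i * b ^ (L - i) = a ^ j * b ^ (L - i) * a ^ (i - j) ∧ a ^ j * b ^ (L - j) = a ^ j * b ^ (L - i) * b ^ (i - j) := by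
  constructor
  · have e1 : i = j + (i - j) := by omega
    calc a ^ i * b ^ (L - i) = a ^ (j + (i - j)) * b ^ (L - i) := by rw [← e1]
      _ = _ := by rw [pow_add]; ring
  · have e1 : L - j = (L - i) + (i - j) := by omega
    rw [e1, pow_add]
    ring

theorem K4S_pair (σ : ℤ) {a b L : ℕ} (ha : 1 ≤ a) (hb : 1 ≤ b) (hab : Nat.Coprime a b) {p p' : ℕ × ℕ} (h : p'.1 < p.1)
    (hp : p.1 ≤ L) : Pair (K4S_f σ a b L p) (K4S_f σ a b L p') ↔
      TrueCase (b ^ (p.1 - p'.1)) (a ^ (p.1 - p'.1)) ((b : ℤ) ^ (p.1 - p'.1) - (a : ℤ) ^ (p.1 - p'.1) +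
        6 * a * b * (σ * ((b : ℤ) ^ (p.1 - p'.1) * p.2 - (a : ℤ) ^ (p.1 - p'.1) * p'.2))) := by
  obtain ⟨e1, e2⟩ := K4S_split (a := a) (b := b) h hp
  obtain ⟨G, hG⟩ : ∃ G : ℕ, G = a ^ p'.1 * b ^ (L - p.1) := ⟨_, rfl⟩
  obtain ⟨m, hm⟩ : ∃ m : ℕ, m = p.1 - p'.1 := ⟨_, rfl⟩
  rw [← hG, ← hm] at e1 e2
  have hG0 : 0 < G := by
    rw [hG]
    positivity
  have hgcd : Nat.gcd (a ^ p.1 * b ^ (L - p.1)) (a ^ p'.1 * b ^ (L - p'.1)) = G := by
    rw [e1, e2, Nat.gcd_mul_left, Nat.Coprime.gcd_eq_one (Nat.Coprime.pow m m hab), mul_one]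
  unfold Pair K4S_f
  simp only
  rw [hgcd, ← hm, e1, e2, Nat.mul_div_cancel_left _ hG0, Nat.mul_div_cancel_left _ hG0]
  have e3 : (((G * b ^ m : ℕ) : ℤ) * (1 + 6 * a * b * (σ * p.2)) - ((G * a ^ m : ℕ) : ℤ) * (1 + 6 * a * b * (σ * p'.2))) / ((G : ℕ) : ℤ) =
      (b : ℤ) ^ m - (a : ℤ) ^ m + 6 * a * b * (σ * ((b : ℤ) ^ m * p.2 - (a : ℤ) ^ m * p'.2)) := by
    have hGz : (G : ℤ) ≠ 0 := by exact_mod_cast hG0.ne'
    apply Int.ediv_eq_of_eq_mul_right hGz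
    push_cast
    ring
  rw [e3]

theorem K4S_inj {σ : ℤ} (hσ : σ = 1 ∨ σ = -1) {a b L Y : ℕ} (ha : 1 ≤ a) (hb : 1 ≤ b) (hne : a ≠ b) :
    Set.InjOn (K4S_f σ a b L) (VV L Y : Set (ℕ × ℕ)) := by
  have key : ∀ i j, j < i → i ≤ L → a ^ i * b ^ (L - i) ≠ a ^ j * b ^ (L - j) := by
    intro i j hji hi h
    obtain ⟨e1, e2⟩ := K4S_split (a := a) (b := b) hji hi
    rw [e1, e2] at h
    have h1 : 0 < a ^ j * b ^ (L - i) := by positivity
    have h2 := Nat.eq_of_mul_eq_mul_left h1 h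
    exact hne (Nat.pow_left_injective (by omega : i - j ≠ 0) h2)
  intro p hp p' hp' h
  have hp1 := (Finset.mem_product.1 (Finset.mem_coe.1 hp)).1
  have hp2 := (Finset.mem_product.1 (Finset.mem_coe.1 hp')).1
  rw [Finset.mem_range] at hp1 hp2
  have h1 : a ^ p.1 * b ^ (L - p.1) = a ^ p'.1 * b ^ (L - p'.1) := congrArg Prod.fst h
  have h2 : (1 : ℤ) + 6 * a * b * (σ * p.2) = 1 + 6 * a * b * (σ * p'.2) := congrArg Prod.snd h
  have h3 : p.1 = p'.1 := by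
    rcases lt_trichotomy p.1 p'.1 with h4 | h4 | h4
    · exact absurd h1.symm (key _ _ h4 hp2.le)
    · exact h4
    · exact absurd h1 (key _ _ h4 hp1.le)
  have h4 : p.2 = p'.2 := by
    have e1 : (6 : ℤ) * a * b ≠ 0 := by positivity
    have e2 : (6 : ℤ) * a * b * (σ * p.2) = 6 * a * b * (σ * p'.2) := by linarith
    have e3 := mul_left_cancel₀ e1 e2
    have e4 : σ ≠ 0 := by rcases hσ with h0 | h0 <;> rw [h0] <;> norm_num
    have e5 := mul_left_cancel₀ e4 e3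
    exact_mod_cast e5
  exact Prod.ext h3 h4

theorem K4S_kr (h1 : PSY_stmt) {σ : ℤ} {a b L : ℕ} (ha : 1 ≤ a) (hb : 1 ≤ b) (hab : Nat.Coprime a b) {p p' : ℕ × ℕ}
    (hp : p.1 ≤ L) (hp' : p'.1 ≤ L) :
    kr a b (BS σ a b) p p' = 0 ∨ (kr a b (BS σ a b) p p' = 1 ∧ ¬ Pair (K4S_f σ a b L p) (K4S_f σ a b L p') ∧
      ¬ Pair (K4S_f σ a b L p') (K4S_f σ a b L p)) := by
  unfold kr
  split_ifs with c1 c2
  · have e := K4S_pair σ ha hb hab c1 hp
    unfold BS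
    split_ifs with c3
    · exact Or.inl rfl
    · right
      rw [← e] at c3
      exact ⟨rfl, c3, fun h => c3 (h1.1 _ _ h)⟩
  · have e := K4S_pair σ ha hb hab c2 hp'
    unfold BS
    split_ifs with c3
    · exact Or.inl rfl
    · right
      rw [← e] at c3
      exact ⟨rfl, fun h => c3 (h1.1 _ _ h), c3⟩
  · exact Or.inl rfl

theorem K4S_good {σ : ℤ} {a b L : ℕ} (ha : 1 ≤ a) (hb : 1 ≤ b) (p : ℕ × ℕ) : 0 < (K4S_f σ a b L p).1 ∧
    IsCoprime ((K4S_f σ a b L p).1 : ℤ) (K4S_f σ a b L p).2 ∧ IsCoprime (6 : ℤ) (K4S_f σ a b L p).2 := by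
  refine ⟨?_, ?_, ?_⟩
  · show 0 < a ^ p.1 * b ^ (L - p.1)
    positivity
  · show IsCoprime ((a ^ p.1 * b ^ (L - p.1) : ℕ) : ℤ) (1 + 6 * a * b * (σ * p.2))
    push_cast
    apply IsCoprime.mul_left
    · apply IsCoprime.pow_left
      exact ⟨-(6 * b * (σ * p.2)), 1, by ring⟩
    · apply IsCoprime.pow_left
      exact ⟨-(6 * a * (σ * p.2)), 1, by ring⟩
  · show IsCoprime (6 : ℤ) (1 + 6 * a * b * (σ * p.2))
    exact ⟨-(a * b * (σ * p.2)), 1, by ring⟩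

open Classical in
theorem K4S (h1 : PSY_stmt) (h2 : ADV_stmt) : K4S_stmt := by
  rintro ⟨C, δ, hC, hδ, -, hQ⟩
  refine ⟨C, δ, hC, hδ, ?_⟩
  intro σ hσ a b L Y ha hb hab hne hL hY
  obtain ⟨V, hV⟩ : ∃ V, V = VV L Y := ⟨_, rfl⟩
  obtain ⟨U, hU⟩ : ∃ U : ℕ × ℕ → ℕ × ℕ → ℝ, U = kr a b (BS σ a b) := ⟨_, rfl⟩
  have hmem : ∀ p ∈ V, p.1 ≤ L := by
    intro p hp
    rw [hV] at hp
    exact (Finset.mem_range.1 (Finset.mem_product.1 hp).1).le
  have hcard : #(V.image (K4S_f σ a b L)) = L * Y := by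
    rw [Finset.card_image_of_injOn (hV ▸ K4S_inj hσ ha hb hne), hV, VV, Finset.card_product, Finset.card_range,
      Finset.card_range]
  have hU' : ∀ p ∈ V, ∀ p' ∈ V, U p p' = 0 ∨ (U p p' = 1 ∧ ¬ Pair (K4S_f σ a b L p) (K4S_f σ a b L p') ∧
      ¬ Pair (K4S_f σ a b L p') (K4S_f σ a b L p)) := by
    intro p hp p' hp'
    rw [hU]
    exact K4S_kr h1 ha hb hab (hmem p hp) (hmem p' hp')
  have hQ1 := hQ (fun _ => V.image (K4S_f σ a b L)) (L * Y) (Nat.mul_pos hL hY) (fun _ => hcard.ge) (by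
    intro _ f hf
    obtain ⟨p, -, rfl⟩ := Finset.mem_image.1 hf
    exact (K4S_good ha hb p).1)
  have e3 : ∏ _i : Fin 4, (((#(V.image (K4S_f σ a b L)) : ℕ) : ℝ)) = ((L : ℝ) * Y) ^ 4 := by
    rw [Finset.prod_const, Finset.card_univ, Fintype.card_fin, hcard]
    push_cast
    rfl
  rw [e3] at hQ1
  push_cast at hQ1
  rw [← hV, ← hU]
  refine le_trans ?_ hQ1
  have step1 : K4 V U ≤ ∑ t ∈ V ×ˢ V ×ˢ V ×ˢ V, if (U t.1 t.2.1 ≠ 0 ∧ U t.1 t.2.2.1 ≠ 0 ∧ U t.1 t.2.2.2 ≠ 0 ∧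
      U t.2.1 t.2.2.1 ≠ 0 ∧ U t.2.1 t.2.2.2 ≠ 0 ∧ U t.2.2.1 t.2.2.2 ≠ 0) then (1 : ℝ) else 0 := by
    have e : K4 V U = ∑ t ∈ V ×ˢ V ×ˢ V ×ˢ V, U t.1 t.2.1 * U t.1 t.2.2.1 * U t.1 t.2.2.2 * U t.2.1 t.2.2.1 *
        U t.2.1 t.2.2.2 * U t.2.2.1 t.2.2.2 := by
      unfold K4
      rw [Finset.sum_product]
      refine Finset.sum_congr rfl fun x _ => ?_
      rw [Finset.sum_product]
      refine Finset.sum_congr rfl fun y _ => ?_
      rw [Finset.sum_product]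
    rw [e]
    refine Finset.sum_le_sum fun t ht => ?_
    obtain ⟨m1, ht1⟩ := Finset.mem_product.1 ht
    obtain ⟨m2, ht2⟩ := Finset.mem_product.1 ht1
    obtain ⟨m3, m4⟩ := Finset.mem_product.1 ht2
    split_ifs with c
    · obtain ⟨c1, c2, c3, c4, c5, c6⟩ := c
      rw [((hU' _ m1 _ m2).resolve_left c1).1, ((hU' _ m1 _ m3).resolve_left c2).1,
        ((hU' _ m1 _ m4).resolve_left c3).1, ((hU' _ m2 _ m3).resolve_left c4).1,
        ((hU' _ m2 _ m4).resolve_left c5).1, ((hU' _ m3 _ m4).resolve_left c6).1]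
      norm_num
    · apply le_of_eq
      simp only [mul_eq_zero]
      tauto
  refine le_trans step1 ?_
  rw [Finset.sum_boole]
  refine Nat.cast_le.2 ?_
  refine Finset.card_le_card_of_injOn (fun t => ![K4S_f σ a b L t.1, K4S_f σ a b L t.2.1, K4S_f σ a b L t.2.2.1,
    K4S_f σ a b L t.2.2.2]) ?_ ?_
  · intro t ht
    obtain ⟨hm, c1, c2, c3, c4, c5, c6⟩ := Finset.mem_filter.1 (Finset.mem_coe.1 ht)
    obtain ⟨m1, ht1⟩ := Finset.mem_product.1 hm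
    obtain ⟨m2, ht2⟩ := Finset.mem_product.1 ht1
    obtain ⟨m3, m4⟩ := Finset.mem_product.1 ht2
    have r1 := ((hU' _ m1 _ m2).resolve_left c1).2
    have r2 := ((hU' _ m1 _ m3).resolve_left c2).2
    have r3 := ((hU' _ m1 _ m4).resolve_left c3).2
    have r4 := ((hU' _ m2 _ m3).resolve_left c4).2
    have r5 := ((hU' _ m2 _ m4).resolve_left c5).2
    have r6 := ((hU' _ m3 _ m4).resolve_left c6).2
    apply Finset.mem_coe.2
    rw [Finset.mem_filter, Fintype.mem_piFinset]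
    refine ⟨?_, h2 _ ?_, ?_⟩
    · intro i
      fin_cases i
      · exact Finset.mem_image_of_mem _ m1
      · exact Finset.mem_image_of_mem _ m2
      · exact Finset.mem_image_of_mem _ m3
      · exact Finset.mem_image_of_mem _ m4
    · intro i
      fin_cases i
      · exact K4S_good ha hb t.1
      · exact K4S_good ha hb t.2.1
      · exact K4S_good ha hb t.2.2.1
      · exact K4S_good ha hb t.2.2.2
    · intro i j hij
      fin_cases i <;> fin_cases j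
      · exact absurd rfl hij
      · exact r1.1
      · exact r2.1
      · exact r3.1
      · exact r1.2
      · exact absurd rfl hij
      · exact r4.1
      · exact r5.1
      · exact r2.2
      · exact r4.2
      · exact absurd rfl hij
      · exact r6.1
      · exact r3.2
      · exact r5.2
      · exact r6.2
      · exact absurd rfl hij
  · intro t ht t' ht' h
    have m := (Finset.mem_filter.1 (Finset.mem_coe.1 ht)).1
    have m' := (Finset.mem_filter.1 (Finset.mem_coe.1 ht')).1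
    obtain ⟨m1, ht1⟩ := Finset.mem_product.1 m
    obtain ⟨m2, ht2⟩ := Finset.mem_product.1 ht1
    obtain ⟨m3, m4⟩ := Finset.mem_product.1 ht2
    obtain ⟨n1, hn1⟩ := Finset.mem_product.1 m'
    obtain ⟨n2, hn2⟩ := Finset.mem_product.1 hn1
    obtain ⟨n3, n4⟩ := Finset.mem_product.1 hn2
    have hinj : Set.InjOn (K4S_f σ a b L) (V : Set (ℕ × ℕ)) := hV ▸ K4S_inj hσ ha hb hne
    have h0 := congrFun h 0
    have h1' := congrFun h 1
    have h2' := congrFun h 2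
    have h3' := congrFun h 3
    simp only [Matrix.cons_val_zero, Matrix.cons_val_one, Matrix.cons_val] at h0 h1' h2' h3'
    exact Prod.ext (hinj m1 n1 h0) (Prod.ext (hinj m2 n2 h1') (Prod.ext (hinj m3 n3 h2') (hinj m4 n4 h3')))

end Pool.Agent.OP
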